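import Pool.Agent.H42.RG.Lower
import Pool.Agent.H42.RG.Platform

/-!
# The 3-core of a sparse random graph is not a.a.s. a giant globally 2-rigid component

With probability bounded away from zero the 3-core of `G(n, c/n)` contains a triangle of vertices
of degree exactly three; a triangle attached to the rest by three bars is rigid but not
redundantly rigid, and for every generic placement it has a second position.

`gnpProb n p Ev` (the probability of `Ev` in the binomial random graph `G(n, p)`) and
`coreSet G k` (the vertex set of the `k`-core) are defined in `Pool.Agent.H42.RG.Gnp` and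
`Pool.Agent.H42.RG.Core`.
-/

set_option autoImplicit false

open Filter Topology Pool.Agent.H42.RG

namespace Pool.Agent.Results.MP_ea0129_co.CoreNotGloballyRigid

/-- A placement in `ℝ^d` is generic if its `d |W|` coordinates are algebraically independent over
the rationals. -/
def IsGeneric {W : Type*} {d : ℕ} (p : W → EuclideanSpace ℝ (Fin d)) : Prop :=
  AlgebraicIndependent ℚ (fun i : W × Fin d => p i.1 i.2)

/-- Every placement `q` of `H` with the same edge lengths as `p` has the same distances between
all pairs of vertices as `p`. -/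
def RigidAt {W : Type*} {d : ℕ} (H : SimpleGraph W) (p : W → EuclideanSpace ℝ (Fin d)) : Prop :=
  ∀ q : W → EuclideanSpace ℝ (Fin d),
    (∀ u v, H.Adj u v → dist (q u) (q v) = dist (p u) (p v)) →
      ∀ u v, dist (q u) (q v) = dist (p u) (p v)

/-- `H` is globally `d`-rigid, tested at some generic placement. -/
def GloballyRigidSome {W : Type*} (d : ℕ) (H : SimpleGraph W) : Prop :=
  ∃ p : W → EuclideanSpace ℝ (Fin d), IsGeneric p ∧ RigidAt H p

/-- `H` is globally `d`-rigid, tested at every generic placement. -/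
def GloballyRigidEvery {W : Type*} (d : ℕ) (H : SimpleGraph W) : Prop :=
  ∀ p : W → EuclideanSpace ℝ (Fin d), IsGeneric p → RigidAt H p

/-- A globally `d`-rigid component: an inclusion-maximal vertex set inducing a globally `d`-rigid
graph (tested at some generic placement). -/
def IsComponentSome {V : Type*} (d : ℕ) (G : SimpleGraph V) (A : Set V) : Prop :=
  Maximal (fun B : Set V => GloballyRigidSome d (G.induce B)) A

/-- A globally `d`-rigid component: an inclusion-maximal vertex set inducing a globally `d`-rigid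
graph (tested at every generic placement). -/
def IsComponentEvery {V : Type*} (d : ℕ) (G : SimpleGraph V) (A : Set V) : Prop :=
  Maximal (fun B : Set V => GloballyRigidEvery d (G.induce B)) A

lemma not_rigidAt {n : ℕ} {G : SimpleGraph (Fin n)} (h : ∃ t ∈ triples n, Good G t)
    (p : ↥(coreSet G 3) → EuclideanSpace ℝ (Fin 2)) (hp : IsGeneric p) :
    ¬ RigidAt (G.induce (coreSet G 3)) p := by
  obtain ⟨t, _, a, b, c, x, y, z, _, ⟨⟨hab, hac, hbc⟩, ⟨hxy, hxz, hyz⟩,
    ⟨⟨hax, hay, haz⟩, ⟨hbx, hby, hbz⟩, ⟨hcx, hcy, hcz⟩⟩, Na, Nb, Nc, ⟨ha, hb, hc⟩,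
    ⟨hx, hy, hz⟩⟩⟩ := h
  intro hrig
  obtain ⟨q, hq1, hq2⟩ := platform (G.induce (coreSet G 3)) ⟨a, ha⟩ ⟨b, hb⟩ ⟨c, hc⟩ ⟨x, hx⟩
    ⟨y, hy⟩ ⟨z, hz⟩ (by simpa using hab) (by simpa using hac) (by simpa using hax)
    (by simpa using hay) (by simpa using haz) (by simpa using hbc) (by simpa using hbx)
    (by simpa using hby) (by simpa using hbz) (by simpa using hcx) (by simpa using hcy)
    (by simpa using hcz) (by simpa using hxy) (by simpa using hxz) (by simpa using hyz)
    (by
      intro w hw
      rcases (Na w).1 hw with h | h | h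
      · exact Or.inl (Subtype.ext h)
      · exact Or.inr (Or.inl (Subtype.ext h))
      · exact Or.inr (Or.inr (Subtype.ext h)))
    (by
      intro w hw
      rcases (Nb w).1 hw with h | h | h
      · exact Or.inl (Subtype.ext h)
      · exact Or.inr (Or.inl (Subtype.ext h))
      · exact Or.inr (Or.inr (Subtype.ext h)))
    (by
      intro w hw
      rcases (Nc w).1 hw with h | h | h
      · exact Or.inl (Subtype.ext h)
      · exact Or.inr (Or.inl (Subtype.ext h))
      · exact Or.inr (Or.inr (Subtype.ext h)))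
    p hp
  exact hq2 (hrig q hq1)

/-- The general step: an event that forces a core of linear size and is incompatible with a good
triangle does not have probability tending to one. -/
lemma not_tendsto {c ε : ℝ} (hc : 0 < c) (hε : 0 < ε)
    (Ev : ∀ n : ℕ, SimpleGraph (Fin n) → Prop)
    (h1 : ∀ n G, Ev n G → ε * n ≤ ((coreSet G 3).ncard : ℝ))
    (h2 : ∀ n G, Ev n G → ¬ ∃ t ∈ triples n, Good G t) :
    ¬ Tendsto (fun n : ℕ => gnpProb n (c / n) (Ev n)) atTop (𝓝 1) := by
  intro hT
  set δ : ℝ := (c ^ 6 * ε ^ 3 * Real.exp (-(6 * c)) / 192) ^ 2 / (c ^ 3 + c ^ 6) with hδ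
  have hδ0 : 0 < δ := by positivity
  have hE0 : 0 < Real.exp (-(6 * c)) / 2 := by positivity
  have e1 : ∀ᶠ n : ℕ in atTop, 1 - δ < gnpProb n (c / n) (Ev n) :=
    hT.eventually (lt_mem_nhds (by linarith))
  have e2 : ∀ᶠ n : ℕ in atTop, 1 - Real.exp (-(6 * c)) / 2 < gnpProb n (c / n) (Ev n) :=
    hT.eventually (lt_mem_nhds (by linarith))
  have e3 : ∀ᶠ n : ℕ in atTop, 2 * c ≤ (n : ℝ) :=
    tendsto_natCast_atTop_atTop.eventually (eventually_ge_atTop _)
  have e4 : ∀ᶠ n : ℕ in atTop, 6 / ε ≤ (n : ℝ) :=
    tendsto_natCast_atTop_atTop.eventually (eventually_ge_atTop _)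
  obtain ⟨n, g1, g2, g3, g4, g5⟩ :=
    (e1.and (e2.and (e3.and (e4.and (eventually_ge_atTop 4))))).exists
  have hn0 : (0 : ℝ) < n := by
    have : (4 : ℝ) ≤ n := by exact_mod_cast g5
    linarith
  have hp0 : 0 ≤ c / n := by positivity
  have hp1 : c / n ≤ 1 := by
    rw [div_le_one hn0]; linarith
  have k1 : gnpProb n (c / n) (Ev n) ≤
      gnpProb n (c / n) (fun G => ε * n ≤ ((coreSet G 3).ncard : ℝ)) :=
    gnpProb_mono hp0 hp1 (h1 n)
  have k2 := good_lower hc hε g5 g3 (by rw [div_le_iff₀ hε] at g4; linarith)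
    (by linarith)
  have k3 : gnpProb n (c / n) (Ev n) ≤
      gnpProb n (c / n) (fun G => ¬ ∃ t ∈ triples n, Good G t) :=
    gnpProb_mono hp0 hp1 (h2 n)
  have k4 := gnpProb_add_not (n := n) (p := c / n) (fun G => ∃ t ∈ triples n, Good G t)
  rw [← hδ] at k2
  linarith

/-- **The 3-core is not a.a.s. a giant globally 2-rigid component.** For every real `c > 0` (in
particular for every `c` above the threshold `c₂` of 2-orientability) and every `ε > 0`, the
probability that the vertex set of the 3-core of `G(n, c/n)` has at least `ε n` vertices and is a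
globally 2-rigid component does not tend to 1. This holds whether global rigidity is tested at
some generic placement or at every generic placement. -/
theorem result : ∀ c : ℝ, 0 < c → ∀ ε : ℝ, 0 < ε →
    (¬ Tendsto (fun n : ℕ => gnpProb n (c / n) (fun G =>
        ε * n ≤ ((coreSet G 3).ncard : ℝ) ∧ IsComponentSome 2 G (coreSet G 3))) atTop (𝓝 1)) ∧
    (¬ Tendsto (fun n : ℕ => gnpProb n (c / n) (fun G =>
        ε * n ≤ ((coreSet G 3).ncard : ℝ) ∧ IsComponentEvery 2 G (coreSet G 3))) atTop (𝓝 1)) := by
  intro c hc ε hε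
  constructor
  · refine not_tendsto hc hε _ (fun n G h => h.1) (fun n G h hgood => ?_)
    obtain ⟨p, hp, hr⟩ := h.2.1
    exact not_rigidAt hgood p hp hr
  · refine not_tendsto hc hε _ (fun n G h => h.1) (fun n G h hgood => ?_)
    obtain ⟨p, hp⟩ := exists_generic ↥(coreSet G 3) 2
    exact not_rigidAt hgood p hp (h.2.1 p hp)

end Pool.Agent.Results.MP_ea0129_co.CoreNotGloballyRigid
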